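import Mathlib

/-!
# Basic facts on bounded functions on the circle, and a Vandermonde lemma
-/

set_option autoImplicit false

open MeasureTheory AddCircle

namespace Pool.Agent.Y937.Op

lemma memLp_cont {F : UnitAddCircle → ℂ} (hF : Continuous F) : MemLp F ⊤ haarAddCircle := by
  obtain ⟨C, hC⟩ := (isCompact_range hF).isBounded.exists_norm_le
  exact memLp_top_of_bound hF.aestronglyMeasurable C
    (Filter.Eventually.of_forall (fun θ => hC _ ⟨θ, rfl⟩))

lemma memLp_mul {F G : UnitAddCircle → ℂ} (hF : MemLp F ⊤ haarAddCircle)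
    (hG : MemLp G ⊤ haarAddCircle) : MemLp (fun θ => F θ * G θ) ⊤ haarAddCircle :=
  hG.mul hF

lemma integrable_top {F : UnitAddCircle → ℂ} (hF : MemLp F ⊤ haarAddCircle) :
    Integrable F haarAddCircle :=
  memLp_one_iff_integrable.1 (hF.mono_exponent le_top)

lemma coeff_add {F G : UnitAddCircle → ℂ} (hF : MemLp F ⊤ haarAddCircle)
    (hG : MemLp G ⊤ haarAddCircle) (n : ℤ) :
    fourierCoeff (fun θ => F θ + G θ) n = fourierCoeff F n + fourierCoeff G n := by
  unfold fourierCoeff
  rw [← integral_add]
  · congr 1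
    funext θ
    simp only [smul_eq_mul]
    ring
  · exact integrable_top (memLp_mul (memLp_cont (fourier (-n)).continuous) hF)
  · exact integrable_top (memLp_mul (memLp_cont (fourier (-n)).continuous) hG)

/-- A polynomial of degree at most `n` with coefficients `w k` in a vector space, whose values lie
in a subspace at more than `n` points, has all its coefficients in the subspace. -/
lemma coeff_mem {V : Type} [AddCommGroup V] [Module ℂ V] (S : Submodule ℂ V) (n : ℕ)
    (w : ℕ → V) (T : Set ℂ) (hT : ∀ t ∈ T, ∑ k ∈ Finset.range (n + 1), t ^ k • w k ∈ S)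
    (hcard : (n : ℕ∞) < T.encard) (k : ℕ) (hk : k ≤ n) : w k ∈ S := by
  obtain ⟨U, hUT, hU⟩ := Set.exists_subset_encard_eq (Order.add_one_le_of_lt hcard)
  have hUfin : U.Finite := Set.finite_of_encard_eq_coe (k := n + 1) (by rw [hU]; rfl)
  have hUcard : hUfin.toFinset.card = n + 1 := by
    have h1 := hUfin.encard_eq_coe_toFinset_card
    rw [hU] at h1
    exact_mod_cast h1.symm
  rw [← Submodule.Quotient.mk_eq_zero]
  rw [← Module.forall_dual_apply_eq_zero_iff ℂ]
  intro φ
  have hP : (∑ j ∈ Finset.range (n + 1),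
      Polynomial.C (φ (Submodule.Quotient.mk (w j))) * Polynomial.X ^ j : Polynomial ℂ) = 0 := by
    refine Polynomial.eq_zero_of_natDegree_lt_card_of_eval_eq_zero' _ hUfin.toFinset ?_ ?_
    · intro t ht
      have htT : t ∈ T := hUT (by simpa using ht)
      have h1 := hT t htT
      rw [← Submodule.Quotient.mk_eq_zero] at h1
      have h2 := congrArg φ h1
      rw [map_zero] at h2
      rw [← h2]
      rw [show (Submodule.Quotient.mk (∑ k ∈ Finset.range (n + 1), t ^ k • w k) : V ⧸ S)
        = S.mkQ (∑ k ∈ Finset.range (n + 1), t ^ k • w k) from rfl, map_sum, map_sum,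
        Polynomial.eval_finsetSum]
      refine Finset.sum_congr rfl fun j _ => ?_
      rw [map_smul, map_smul, smul_eq_mul, Polynomial.eval_mul, Polynomial.eval_C,
        Polynomial.eval_pow, Polynomial.eval_X, mul_comm]
      rfl
    · rw [hUcard]
      refine Nat.lt_succ_of_le (Polynomial.natDegree_sum_le_of_forall_le _ _ fun j hj => ?_)
      exact (Polynomial.natDegree_C_mul_X_pow_le _ _).trans
        (Nat.lt_succ_iff.1 (Finset.mem_range.1 hj))
  have h3 := congrArg (fun P : Polynomial ℂ => P.coeff k) hP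
  simp only [Polynomial.finsetSum_coeff, Polynomial.coeff_C_mul, Polynomial.coeff_X_pow,
    Polynomial.coeff_zero, mul_ite, mul_one, mul_zero] at h3
  rw [Finset.sum_ite_eq, if_pos (Finset.mem_range.2 (Nat.lt_succ_of_le hk))] at h3
  exact h3

end Pool.Agent.Y937.Op
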