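import Pool.Agent.Results.MP_bd9a46_an.NotAlgebra

/-!
# Multipliers of `ℓ^p(ℤ)` and of `ℓ^q(ℤ)` for conjugate exponents
-/

set_option autoImplicit false

open MeasureTheory AddCircle Filter Topology

namespace Pool.Agent.Y937.Op

open Pool.Agent.Results.MP_bd9a46_an.NotAlgebra

/-- Multipliers of `ℓ^p` are multipliers of `ℓ^q`, `1/p + 1/q = 1`. -/
theorem dual {p q : ℝ} (h : p.HolderConjugate q) {φ : UnitAddCircle → ℂ}
    (hφ : IsMp (ENNReal.ofReal p) φ) : IsMp (ENNReal.ofReal q) φ := by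
  obtain ⟨hφ1, C, hC⟩ := hφ
  have hp0 : 0 < p := h.pos
  have hq0 : 0 < q := h.symm.pos
  have eP : (ENNReal.ofReal p).toReal = p := ENNReal.toReal_ofReal hp0.le
  have eQ : (ENNReal.ofReal q).toReal = q := ENNReal.toReal_ofReal hq0.le
  have hP : 0 < (ENNReal.ofReal p).toReal := by rw [eP]; exact hp0
  have hQ : 0 < (ENNReal.ofReal q).toReal := by rw [eQ]; exact hq0
  set b : ℤ → ℂ := fun n => fourierCoeff φ n with hb
  -- the coefficients are in `ℓ^p`
  have hbs : Summable fun n => ‖b n‖ ^ p := by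
    obtain ⟨g, hg, -⟩ := hC (lp.single _ 0 (1 : ℂ))
    have e : ∀ n, g n = b n := by
      intro n
      refine (hg n).unique ?_
      have h1 := hasSum_single (f := fun m => fourierCoeff φ (n - m)
        * (lp.single (E := fun _ : ℤ => ℂ) (ENNReal.ofReal p) 0 (1 : ℂ)) m) 0 (by
          intro m hm
          rw [lp.single_apply_ne _ _ _ hm, mul_zero])
      rw [lp.single_apply_self, mul_one, sub_zero] at h1
      exact h1
    have h2 := (lp.memℓp g).summable hP
    rw [eP] at h2
    simpa only [e] using h2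
  refine ⟨hφ1, |C|, fun f => ?_⟩
  have hfs : Summable fun n => ‖f n‖ ^ q := by
    have h2 := (lp.memℓp f).summable hQ
    rwa [eQ] at h2
  have hsum : ∀ n, Summable fun m => b (n - m) * f m := by
    intro n
    have h1 : Summable fun m => ‖b (n - m)‖ ^ p :=
      ((Equiv.subLeft n).summable_iff (f := fun m => ‖b m‖ ^ p)).mpr hbs
    have h2 := Real.summable_mul_of_Lp_Lq_of_nonneg h (fun m => norm_nonneg (b (n - m)))
      (fun m => norm_nonneg (f m)) h1 hfs
    refine Summable.of_norm ?_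
    simpa only [norm_mul] using h2
  set G : ℤ → ℂ := fun n => ∑' m, b (n - m) * f m with hG
  have hGs : ∀ n, HasSum (fun m => b (n - m) * f m) (G n) := fun n => (hsum n).hasSum
  have hf0 : 0 ≤ ‖f‖ := lp.norm_nonneg' f
  -- the main estimate
  have main : ∀ T : Finset ℤ, ∑ n ∈ T, ‖G n‖ ^ q ≤ (|C| * ‖f‖) ^ q := by
    intro T
    set A : ℝ := ∑ n ∈ T, ‖G n‖ ^ q with hA
    have hA0 : 0 ≤ A := Finset.sum_nonneg fun n _ => by positivity
    set k : ℤ → ℂ := fun n =>
      if n ∈ T then (starRingEnd ℂ) (G n) * ((‖G n‖ ^ (q - 2) : ℝ) : ℂ) else 0 with hk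
    have hk0 : ∀ n, n ∉ T → k n = 0 := fun n hn => by rw [hk]; simp only [if_neg hn]
    have hkp : ∀ n ∈ T, ‖k n‖ ^ p = ‖G n‖ ^ q := by
      intro n hn
      rw [hk]
      simp only [if_pos hn]
      rw [norm_mul, RCLike.norm_conj, Complex.norm_real, Real.norm_of_nonneg (by positivity)]
      rcases eq_or_ne (G n) 0 with h0 | h0
      · rw [h0, norm_zero, zero_mul, Real.zero_rpow hp0.ne', Real.zero_rpow hq0.ne']
      · have hpos : 0 < ‖G n‖ := norm_pos_iff.2 h0
        rw [← Real.rpow_one_add' hpos.le (by have := h.symm.lt; linarith), ← Real.rpow_mul hpos.le]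
        congr 1
        have := h.symm.sub_one_mul_conj
        linarith
    have hGk : ∀ n ∈ T, G n * k n = ((‖G n‖ ^ q : ℝ) : ℂ) := by
      intro n hn
      rw [hk]
      simp only [if_pos hn]
      rw [← mul_assoc, Complex.mul_conj, Complex.normSq_eq_norm_sq, ← Complex.ofReal_mul]
      congr 1
      rcases eq_or_ne (G n) 0 with h0 | h0
      · rw [h0, norm_zero, Real.zero_rpow hq0.ne']
        ring
      · have hpos : 0 < ‖G n‖ := norm_pos_iff.2 h0
        rw [← Real.rpow_natCast, ← Real.rpow_add hpos]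
        congr 1
        push_cast
        ring
    have hksum : ∑ n ∈ T, ‖k n‖ ^ p = A := Finset.sum_congr rfl hkp
    have hkle : ∀ s : Finset ℤ, ∑ i ∈ s, ‖k (-i)‖ ^ p ≤ A := by
      intro s
      have h1 : HasSum (fun n => ‖k n‖ ^ p) A := by
        rw [← hksum]
        exact hasSum_sum_of_ne_finset_zero fun n hn => by
          rw [hk0 n hn, norm_zero, Real.zero_rpow hp0.ne']
      have h2 : HasSum (fun n => ‖k (-n)‖ ^ p) A := (Equiv.neg ℤ).hasSum_iff.2 h1
      exact sum_le_hasSum s (fun _ _ => by positivity) h2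
    have hkmem : Memℓp (fun m : ℤ => k (-m)) (ENNReal.ofReal p) := by
      refine memℓp_gen' (C := A) fun s => ?_
      rw [eP]
      exact hkle s
    obtain ⟨z, hz1, hz2⟩ := hC ⟨_, hkmem⟩
    have hkn : ‖(⟨_, hkmem⟩ : lp (fun _ : ℤ => ℂ) (ENNReal.ofReal p))‖ ≤ A ^ (1 / p) := by
      refine lp.norm_le_of_forall_sum_le hP (by positivity) fun s => ?_
      rw [eP, ← Real.rpow_mul hA0, one_div, inv_mul_cancel₀ hp0.ne', Real.rpow_one]
      exact hkle s
    have hz3 : ‖z‖ ≤ |C| * A ^ (1 / p) := by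
      refine hz2.trans ?_
      refine (mul_le_mul_of_nonneg_right (le_abs_self C) (lp.norm_nonneg' _)).trans ?_
      exact mul_le_mul_of_nonneg_left hkn (abs_nonneg C)
    have hzm : ∀ m, z (-m) = ∑ n ∈ T, b (n - m) * k n := by
      intro m
      have h1 := hz1 (-m)
      have h2 : HasSum (fun n => b (n - m) * k n) (z (-m)) := by
        rw [← (Equiv.neg ℤ).hasSum_iff]
        have e : ((fun n => b (n - m) * k n) ∘ (Equiv.neg ℤ))
            = fun i : ℤ => fourierCoeff φ (-m - i) * k (-i) := by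
          funext i
          simp only [hb, Function.comp_apply, Equiv.neg_apply]
          rw [show -i - m = -m - i by ring]
        rw [e]
        exact h1
      refine h2.unique (hasSum_sum_of_ne_finset_zero fun n hn => ?_)
      rw [hk0 n hn, mul_zero]
    have hS : HasSum (fun m => f m * z (-m)) ((A : ℝ) : ℂ) := by
      have h1 : HasSum (fun m => ∑ n ∈ T, (b (n - m) * f m) * k n) (∑ n ∈ T, G n * k n) :=
        hasSum_sum fun n _ => (hGs n).mul_right (k n)
      have h2 : ∑ n ∈ T, G n * k n = ((A : ℝ) : ℂ) := by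
        rw [Finset.sum_congr rfl hGk, hA, Complex.ofReal_sum]
      rw [h2] at h1
      have e : (fun m => ∑ n ∈ T, (b (n - m) * f m) * k n) = fun m => f m * z (-m) := by
        funext m
        rw [hzm, Finset.mul_sum]
        refine Finset.sum_congr rfl fun n _ => ?_
        ring
      rwa [e] at h1
    have hA1 : A ≤ ‖f‖ * ‖z‖ := by
      have h1 : Tendsto (fun S : Finset ℤ => ‖∑ m ∈ S, f m * z (-m)‖) atTop (𝓝 ‖((A : ℝ) : ℂ)‖) :=
        hS.norm
      have h2 : ‖((A : ℝ) : ℂ)‖ = A := by rw [Complex.norm_real, Real.norm_of_nonneg hA0]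
      rw [h2] at h1
      refine le_of_tendsto h1 (Eventually.of_forall fun S => ?_)
      refine (norm_sum_le _ _).trans ?_
      have h3 := Real.inner_le_Lp_mul_Lq_of_nonneg (s := S) (f := fun m => ‖f m‖)
        (g := fun m => ‖z (-m)‖) h.symm (fun _ _ => norm_nonneg _) (fun _ _ => norm_nonneg _)
      simp only [norm_mul]
      refine h3.trans ?_
      have h4 : (∑ m ∈ S, ‖f m‖ ^ q) ^ (1 / q) ≤ ‖f‖ := by
        have h5 := lp.sum_rpow_le_norm_rpow hQ f S
        rw [eQ] at h5
        calc (∑ m ∈ S, ‖f m‖ ^ q) ^ (1 / q) ≤ (‖f‖ ^ q) ^ (1 / q) :=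
              Real.rpow_le_rpow (Finset.sum_nonneg fun _ _ => by positivity) h5 (by positivity)
          _ = ‖f‖ := by
              rw [← Real.rpow_mul hf0, one_div, mul_inv_cancel₀ hq0.ne', Real.rpow_one]
      have h6 : (∑ m ∈ S, ‖z (-m)‖ ^ p) ^ (1 / p) ≤ ‖z‖ := by
        have h5 := lp.sum_rpow_le_norm_rpow hP z (S.map (Equiv.neg ℤ).toEmbedding)
        rw [eP, Finset.sum_map] at h5
        simp only [Equiv.coe_toEmbedding, Equiv.neg_apply] at h5
        calc (∑ m ∈ S, ‖z (-m)‖ ^ p) ^ (1 / p) ≤ (‖z‖ ^ p) ^ (1 / p) :=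
              Real.rpow_le_rpow (Finset.sum_nonneg fun _ _ => by positivity) h5 (by positivity)
          _ = ‖z‖ := by
              rw [← Real.rpow_mul (lp.norm_nonneg' z), one_div, mul_inv_cancel₀ hp0.ne',
                Real.rpow_one]
      exact mul_le_mul h4 h6 (by positivity) hf0
    have hA2 : A ≤ (|C| * ‖f‖) * A ^ (1 / p) := by
      refine hA1.trans ?_
      calc ‖f‖ * ‖z‖ ≤ ‖f‖ * (|C| * A ^ (1 / p)) := mul_le_mul_of_nonneg_left hz3 hf0
        _ = (|C| * ‖f‖) * A ^ (1 / p) := by ring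
    rcases hA0.eq_or_lt with h0 | hpos
    · rw [← h0]
      positivity
    · have hApos : 0 < A ^ (1 / p) := by positivity
      have h1 : A ^ (1 / q) ≤ |C| * ‖f‖ := by
        have h2 : A = A ^ (1 / q) * A ^ (1 / p) := by
          rw [← Real.rpow_add hpos, one_div, one_div, h.symm.inv_add_inv_eq_one, Real.rpow_one]
        rw [h2] at hA2
        have h3 : A ^ (1 / q) * A ^ (1 / p) ≤ (|C| * ‖f‖) * A ^ (1 / p) := by
          calc A ^ (1 / q) * A ^ (1 / p) = A := h2.symm
            _ ≤ _ := by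
              refine hA1.trans ?_
              calc ‖f‖ * ‖z‖ ≤ ‖f‖ * (|C| * A ^ (1 / p)) := mul_le_mul_of_nonneg_left hz3 hf0
                _ = (|C| * ‖f‖) * A ^ (1 / p) := by ring
        exact le_of_mul_le_mul_right h3 hApos
      calc A = (A ^ (1 / q)) ^ q := by
            rw [← Real.rpow_mul hA0, one_div, inv_mul_cancel₀ hq0.ne', Real.rpow_one]
        _ ≤ (|C| * ‖f‖) ^ q := Real.rpow_le_rpow (by positivity) h1 hq0.le
  have hGmem : Memℓp G (ENNReal.ofReal q) := by
    refine memℓp_gen' (C := (|C| * ‖f‖) ^ q) fun T => ?_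
    rw [eQ]
    exact main T
  refine ⟨⟨G, hGmem⟩, fun n => hGs n, ?_⟩
  refine lp.norm_le_of_forall_sum_le hQ (by positivity) fun T => ?_
  rw [eQ]
  exact main T

/-- `M_p = M_q` and `X_p = X_q` for conjugate exponents. -/
theorem isMp_iff {p q : ℝ} (h : p.HolderConjugate q) (φ : UnitAddCircle → ℂ) :
    IsMp (ENNReal.ofReal p) φ ↔ IsMp (ENNReal.ofReal q) φ :=
  ⟨dual h, dual h.symm⟩

theorem inX_iff {p q : ℝ} (h : p.HolderConjugate q) (u : UnitAddCircle → ℂ) :
    InX (ENNReal.ofReal p) u ↔ InX (ENNReal.ofReal q) u := by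
  unfold InX
  simp only [isMp_iff h]

end Pool.Agent.Y937.Op
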